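import Pool.Agent.H26.MQ.Defs

/-!
# GB, GC: the size and the continuity of the kernel
-/

set_option autoImplicit false

open MeasureTheory Set

namespace Pool.Agent.H91.MQ

open Pool.Agent.H26.MQ Pool.Agent.H26.ML

theorem pf_gc : T_GC := by
  intro x N hN
  unfold gk
  refine continuous_const.mul ?_
  refine intervalIntegral.continuous_parametric_intervalIntegral_of_continuous' ?_ 0 N
  unfold Function.uncurry
  fun_prop

/-- integration by parts twice -/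
lemma gk_parts (x N y : ℝ) (hN : 1 ≤ N) :
    y ^ 2 * ∫ ξ in (0 : ℝ)..N, (1 - ξ / N) ^ 3 * Real.exp (x * ξ) * Real.cos (ξ * y) =
      -(x - 3 / N) - ∫ ξ in (0 : ℝ)..N, (x ^ 2 * (1 - ξ / N) ^ 3 - 6 * x / N * (1 - ξ / N) ^ 2 +
        6 / N ^ 2 * (1 - ξ / N)) * Real.exp (x * ξ) * Real.cos (ξ * y) := by
  have hN0 : N ≠ 0 := by linarith
  have h1 : ∀ ξ ∈ uIcc (0 : ℝ) N, HasDerivAt
      (fun ξ : ℝ => (1 - ξ / N) ^ 3 * Real.exp (x * ξ) * (y * Real.sin (ξ * y)) +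
        (x * (1 - ξ / N) ^ 3 - 3 / N * (1 - ξ / N) ^ 2) * Real.exp (x * ξ) * Real.cos (ξ * y))
      (y ^ 2 * ((1 - ξ / N) ^ 3 * Real.exp (x * ξ) * Real.cos (ξ * y)) +
        (x ^ 2 * (1 - ξ / N) ^ 3 - 6 * x / N * (1 - ξ / N) ^ 2 +
        6 / N ^ 2 * (1 - ξ / N)) * Real.exp (x * ξ) * Real.cos (ξ * y)) ξ := by
    intro ξ _
    have hid : HasDerivAt (fun ξ : ℝ => ξ) 1 ξ := hasDerivAt_id' ξ
    have hw : HasDerivAt (fun ξ : ℝ => 1 - ξ / N) (-(1 / N)) ξ := (hid.div_const N).const_sub 1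
    have he : HasDerivAt (fun ξ : ℝ => Real.exp (x * ξ)) (Real.exp (x * ξ) * x) ξ := by
      have : HasDerivAt (fun ξ : ℝ => x * ξ) x ξ := by simpa using hid.const_mul x
      exact this.exp
    have hxy : HasDerivAt (fun ξ : ℝ => ξ * y) y ξ := by simpa using hid.mul_const y
    have hc : HasDerivAt (fun ξ : ℝ => Real.cos (ξ * y)) (-Real.sin (ξ * y) * y) ξ := hxy.cos
    have hs : HasDerivAt (fun ξ : ℝ => Real.sin (ξ * y)) (Real.cos (ξ * y) * y) ξ := hxy.sin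
    refine ((((hw.pow 3).mul he).mul (hs.const_mul y)).add
      (((((hw.pow 3).const_mul x).sub ((hw.pow 2).const_mul (3 / N))).mul he).mul
        hc)).congr_deriv ?_
    simp only [Pi.pow_apply, Pi.mul_apply, Pi.sub_apply]
    push_cast
    field_simp
    ring
  have hc1 : Continuous (fun ξ : ℝ => (1 - ξ / N) ^ 3 * Real.exp (x * ξ) * Real.cos (ξ * y)) := by
    fun_prop
  have hc2 : Continuous (fun ξ : ℝ => (x ^ 2 * (1 - ξ / N) ^ 3 - 6 * x / N * (1 - ξ / N) ^ 2 +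
        6 / N ^ 2 * (1 - ξ / N)) * Real.exp (x * ξ) * Real.cos (ξ * y)) := by
    fun_prop
  have h2 := intervalIntegral.integral_eq_sub_of_hasDerivAt h1
    (((continuous_const.mul hc1).add hc2).intervalIntegrable _ _)
  have hc3 : Continuous (fun ξ : ℝ => y ^ 2 * ((1 - ξ / N) ^ 3 * Real.exp (x * ξ) *
      Real.cos (ξ * y))) := by fun_prop
  rw [intervalIntegral.integral_add (hc3.intervalIntegrable _ _)
    (hc2.intervalIntegrable _ _), intervalIntegral.integral_const_mul] at h2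
  have h3 : (1 - N / N) = 0 := by rw [div_self hN0, sub_self]
  rw [h3] at h2
  simp only [zero_div, sub_zero, one_pow, mul_zero, Real.exp_zero, mul_one, zero_mul,
    Real.sin_zero, Real.cos_zero, ne_eq, OfNat.ofNat_ne_zero, not_false_eq_true, zero_pow,
    add_zero, zero_add, zero_sub] at h2
  linarith

theorem pf_gb : T_GB := by
  intro X
  rcases lt_or_ge X 0 with hX | hX
  · exact ⟨0, le_rfl, fun x N y h0 h1 _ => absurd (h0.trans h1) (not_le.2 hX)⟩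
  refine ⟨X ^ 2 + 7 * X + 10, by positivity, fun x N y hx0 hxX hN => ?_⟩
  have hN0 : 0 < N := by linarith
  have hE : ∀ ξ ∈ Set.uIoc (0 : ℝ) N, 0 ≤ 1 - ξ / N ∧ 1 - ξ / N ≤ 1 ∧
      Real.exp (x * ξ) ≤ Real.exp (X * N) := by
    intro ξ hξ
    rw [uIoc_of_le hN0.le] at hξ
    have h1 : ξ / N ≤ 1 := (div_le_one hN0).2 hξ.2
    have h2 : 0 ≤ ξ / N := div_nonneg hξ.1.le hN0.le
    refine ⟨by linarith, by linarith, Real.exp_le_exp.2 ?_⟩
    exact mul_le_mul hxX hξ.2 hξ.1.le hX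
  have b1 : ‖∫ ξ in (0 : ℝ)..N, (1 - ξ / N) ^ 3 * Real.exp (x * ξ) * Real.cos (ξ * y)‖ ≤
      Real.exp (X * N) * |N - 0| := by
    refine intervalIntegral.norm_integral_le_of_norm_le_const fun ξ hξ => ?_
    obtain ⟨h1, h2, h3⟩ := hE ξ hξ
    rw [Real.norm_eq_abs, abs_mul, abs_mul, abs_of_pos (Real.exp_pos _),
      abs_of_nonneg (pow_nonneg h1 3)]
    calc (1 - ξ / N) ^ 3 * Real.exp (x * ξ) * |Real.cos (ξ * y)|
        ≤ 1 * Real.exp (X * N) * 1 := by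
          refine mul_le_mul (mul_le_mul (pow_le_one₀ h1 h2) h3 (Real.exp_pos _).le zero_le_one)
            (Real.abs_cos_le_one _) (abs_nonneg _) (by positivity)
      _ = Real.exp (X * N) := by ring
  have b2 : ‖∫ ξ in (0 : ℝ)..N, (x ^ 2 * (1 - ξ / N) ^ 3 - 6 * x / N * (1 - ξ / N) ^ 2 +
        6 / N ^ 2 * (1 - ξ / N)) * Real.exp (x * ξ) * Real.cos (ξ * y)‖ ≤
      ((X ^ 2 + 6 * X + 6) * Real.exp (X * N)) * |N - 0| := by
    refine intervalIntegral.norm_integral_le_of_norm_le_const fun ξ hξ => ?_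
    obtain ⟨h1, h2, h3⟩ := hE ξ hξ
    have q1 : |x ^ 2 * (1 - ξ / N) ^ 3 - 6 * x / N * (1 - ξ / N) ^ 2 +
        6 / N ^ 2 * (1 - ξ / N)| ≤ X ^ 2 + 6 * X + 6 := by
      have a1 : |x ^ 2 * (1 - ξ / N) ^ 3| ≤ X ^ 2 := by
        rw [abs_of_nonneg (mul_nonneg (sq_nonneg _) (pow_nonneg h1 3))]
        calc x ^ 2 * (1 - ξ / N) ^ 3 ≤ X ^ 2 * 1 :=
              mul_le_mul (pow_le_pow_left₀ hx0 hxX 2) (pow_le_one₀ h1 h2) (pow_nonneg h1 3)
                (sq_nonneg _)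
          _ = X ^ 2 := mul_one _
      have a2 : |6 * x / N * (1 - ξ / N) ^ 2| ≤ 6 * X := by
        rw [abs_of_nonneg (mul_nonneg (by positivity) (pow_nonneg h1 2))]
        have : 6 * x / N ≤ 6 * X := by
          rw [div_le_iff₀ hN0]
          nlinarith
        calc 6 * x / N * (1 - ξ / N) ^ 2 ≤ 6 * X * 1 :=
              mul_le_mul this (pow_le_one₀ h1 h2) (pow_nonneg h1 2) (by positivity)
          _ = 6 * X := mul_one _
      have a3 : |6 / N ^ 2 * (1 - ξ / N)| ≤ 6 := by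
        rw [abs_of_nonneg (mul_nonneg (by positivity) h1)]
        have : 6 / N ^ 2 ≤ 6 := by
          rw [div_le_iff₀ (by positivity)]
          nlinarith
        calc 6 / N ^ 2 * (1 - ξ / N) ≤ 6 * 1 :=
              mul_le_mul this h2 h1 (by norm_num)
          _ = 6 := mul_one _
      calc |x ^ 2 * (1 - ξ / N) ^ 3 - 6 * x / N * (1 - ξ / N) ^ 2 + 6 / N ^ 2 * (1 - ξ / N)|
          ≤ |x ^ 2 * (1 - ξ / N) ^ 3 - 6 * x / N * (1 - ξ / N) ^ 2| +
            |6 / N ^ 2 * (1 - ξ / N)| := abs_add_le _ _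
        _ ≤ |x ^ 2 * (1 - ξ / N) ^ 3| + |6 * x / N * (1 - ξ / N) ^ 2| +
            |6 / N ^ 2 * (1 - ξ / N)| := by
          have := abs_sub (x ^ 2 * (1 - ξ / N) ^ 3) (6 * x / N * (1 - ξ / N) ^ 2)
          linarith
        _ ≤ _ := by linarith
    rw [Real.norm_eq_abs, abs_mul, abs_mul, abs_of_pos (Real.exp_pos _)]
    calc |x ^ 2 * (1 - ξ / N) ^ 3 - 6 * x / N * (1 - ξ / N) ^ 2 + 6 / N ^ 2 * (1 - ξ / N)| *
          Real.exp (x * ξ) * |Real.cos (ξ * y)|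
        ≤ (X ^ 2 + 6 * X + 6) * Real.exp (X * N) * 1 := by
          refine mul_le_mul (mul_le_mul q1 h3 (Real.exp_pos _).le (by positivity))
            (Real.abs_cos_le_one _) (abs_nonneg _) (by positivity)
      _ = (X ^ 2 + 6 * X + 6) * Real.exp (X * N) := by ring
  rw [sub_zero, abs_of_pos hN0, Real.norm_eq_abs] at b1 b2
  have hp := gk_parts x N y hN
  obtain ⟨I, hI⟩ : ∃ I, I = ∫ ξ in (0 : ℝ)..N, (1 - ξ / N) ^ 3 * Real.exp (x * ξ) *
    Real.cos (ξ * y) := ⟨_, rfl⟩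
  obtain ⟨J, hJ⟩ : ∃ J, J = ∫ ξ in (0 : ℝ)..N, (x ^ 2 * (1 - ξ / N) ^ 3 -
    6 * x / N * (1 - ξ / N) ^ 2 + 6 / N ^ 2 * (1 - ξ / N)) * Real.exp (x * ξ) *
    Real.cos (ξ * y) := ⟨_, rfl⟩
  rw [← hI] at b1 hp
  rw [← hJ] at b2 hp
  have b3 : |x - 3 / N| ≤ X + 3 := by
    have h1 : 3 / N ≤ 3 := by rw [div_le_iff₀ hN0]; nlinarith
    have h2 : 0 ≤ 3 / N := by positivity
    rw [abs_le]; constructor <;> linarith
  have b4 : |I| * y ^ 2 ≤ X + 3 + (X ^ 2 + 6 * X + 6) * Real.exp (X * N) * N := by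
    have h1 : |I| * y ^ 2 = |y ^ 2 * I| := by
      rw [abs_mul, abs_of_nonneg (sq_nonneg y)]; ring
    rw [h1, hp]
    have h2 := abs_sub (-(x - 3 / N)) J
    rw [abs_neg] at h2
    linarith
  have hEX : 1 ≤ Real.exp (X * N) := Real.one_le_exp (by positivity)
  have hNe : N ≤ Real.exp N := by
    have := Real.add_one_le_exp N
    linarith
  have hEN : 1 ≤ Real.exp (X * N) * N := by nlinarith
  have b5 : |I| * (1 ^ 2 + y ^ 2) ≤ (X ^ 2 + 7 * X + 10) * Real.exp ((X + 1) * N) := by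
    have h1 : Real.exp ((X + 1) * N) = Real.exp (X * N) * Real.exp N := by
      rw [← Real.exp_add]; ring_nf
    have h2 : Real.exp (X * N) * N ≤ Real.exp ((X + 1) * N) := by
      rw [h1]
      exact mul_le_mul_of_nonneg_left hNe (Real.exp_pos _).le
    calc |I| * (1 ^ 2 + y ^ 2) = |I| + |I| * y ^ 2 := by ring
      _ ≤ Real.exp (X * N) * N + (X + 3 + (X ^ 2 + 6 * X + 6) * Real.exp (X * N) * N) := by
        linarith
      _ ≤ (X ^ 2 + 7 * X + 10) * (Real.exp (X * N) * N) := by nlinarith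
      _ ≤ _ := mul_le_mul_of_nonneg_left h2 (by positivity)
  unfold gk poi
  rw [← hI, abs_mul, abs_of_pos (inv_pos.2 Real.pi_pos), mul_one_div, le_div_iff₀ (by positivity)]
  have hpi : Real.pi⁻¹ ≤ 1 := inv_le_one_of_one_le₀ (by linarith [Real.pi_gt_three])
  calc Real.pi⁻¹ * |I| * (1 ^ 2 + y ^ 2) = Real.pi⁻¹ * (|I| * (1 ^ 2 + y ^ 2)) := by ring
    _ ≤ 1 * (|I| * (1 ^ 2 + y ^ 2)) := mul_le_mul_of_nonneg_right hpi (by positivity)
    _ = |I| * (1 ^ 2 + y ^ 2) := one_mul _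
    _ ≤ _ := b5

end Pool.Agent.H91.MQ
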