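import Pool.Agent.H26.MQ.Defs

/-!
# PB: elementary facts on the density
-/

set_option autoImplicit false

open MeasureTheory Set

namespace Pool.Agent.H91.MQ

open Pool.Agent.H26.MQ Pool.Agent.H26.ML

/-- the integral formula -/
lemma pp_int (r : ℝ) :
    pp r = 3 * ∫ ξ in (0 : ℝ)..1, ξ * (1 - ξ) ^ 2 * Real.sin (r * ξ) := by
  by_cases hr : r = 0
  · subst hr; simp [pp]
  have h1 : ∀ ξ ∈ uIcc (0 : ℝ) 1, HasDerivAt
      (fun ξ : ℝ => -(ξ * (1 - ξ) ^ 2) * Real.cos (r * ξ) / r +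
        (1 - 4 * ξ + 3 * ξ ^ 2) * Real.sin (r * ξ) / r ^ 2 +
        (-4 + 6 * ξ) * Real.cos (r * ξ) / r ^ 3 - 6 * Real.sin (r * ξ) / r ^ 4)
      (ξ * (1 - ξ) ^ 2 * Real.sin (r * ξ)) ξ := by
    intro ξ _
    have hid : HasDerivAt (fun ξ : ℝ => ξ) 1 ξ := hasDerivAt_id' ξ
    have hrx : HasDerivAt (fun ξ : ℝ => r * ξ) r ξ := by
      simpa using hid.const_mul r
    have hc : HasDerivAt (fun ξ : ℝ => Real.cos (r * ξ)) (-Real.sin (r * ξ) * r) ξ := hrx.cos
    have hs : HasDerivAt (fun ξ : ℝ => Real.sin (r * ξ)) (Real.cos (r * ξ) * r) ξ := hrx.sin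
    have hw : HasDerivAt (fun ξ : ℝ => 1 - ξ) (-1) ξ := by
      simpa using hid.const_sub 1
    have hF : HasDerivAt (fun ξ : ℝ => -(ξ * (1 - ξ) ^ 2)) (-(1 - 4 * ξ + 3 * ξ ^ 2)) ξ := by
      refine ((hid.mul (hw.pow 2)).neg).congr_deriv ?_
      simp only [Pi.pow_apply]
      push_cast
      ring
    have hF1 : HasDerivAt (fun ξ : ℝ => 1 - 4 * ξ + 3 * ξ ^ 2) (-4 + 6 * ξ) ξ := by
      refine (((hid.const_mul 4).const_sub 1).add ((hid.pow 2).const_mul 3)).congr_deriv ?_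
      push_cast
      ring
    have hF2 : HasDerivAt (fun ξ : ℝ => -4 + 6 * ξ) 6 ξ := by
      refine ((hid.const_mul 6).const_add (-4)).congr_deriv ?_
      ring
    refine (((((hF.mul hc).div_const r).add ((hF1.mul hs).div_const (r ^ 2))).add
      ((hF2.mul hc).div_const (r ^ 3))).sub ((hs.const_mul 6).div_const (r ^ 4))).congr_deriv ?_
    field_simp
    ring
  have h2 : Continuous (fun ξ : ℝ => ξ * (1 - ξ) ^ 2 * Real.sin (r * ξ)) := by fun_prop
  rw [intervalIntegral.integral_eq_sub_of_hasDerivAt h1 (h2.intervalIntegrable _ _)]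
  unfold pp
  simp only [mul_one, mul_zero, Real.cos_zero, Real.sin_zero]
  field_simp
  ring

lemma mono_aux (f f' : ℝ → ℝ) (hf : ∀ x, HasDerivAt f (f' x) x) (h0 : f 0 = 0)
    (hf' : ∀ x ∈ Icc (0 : ℝ) 3, 0 ≤ f' x) : ∀ x ∈ Icc (0 : ℝ) 3, 0 ≤ f x := by
  have hm : MonotoneOn f (Icc (0 : ℝ) 3) := by
    refine monotoneOn_of_deriv_nonneg (convex_Icc _ _)
      (fun x _ => (hf x).continuousAt.continuousWithinAt)
      (fun x _ => (hf x).differentiableAt.differentiableWithinAt) ?_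
    intro x hx
    rw [interior_Icc] at hx
    rw [(hf x).deriv]
    exact hf' x ⟨hx.1.le, hx.2.le⟩
  intro x hx
  have := hm (left_mem_Icc.2 (by norm_num)) hx hx.1
  rwa [h0] at this

/-- the numerator is nonnegative -/
lemma num_nonneg (r : ℝ) (hr : 0 ≤ r) : 0 ≤ 2 * r + r * Real.cos r - 3 * Real.sin r := by
  by_cases h3 : 3 ≤ r
  · have h1 := Real.neg_one_le_cos r
    have h2 := Real.sin_le_one r
    nlinarith
  · push Not at h3
    have k3 : ∀ x ∈ Icc (0 : ℝ) 3, 0 ≤ x * Real.sin x := by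
      intro x hx
      refine mul_nonneg hx.1 (Real.sin_nonneg_of_nonneg_of_le_pi hx.1 ?_)
      have := Real.pi_gt_three
      linarith [hx.2]
    have k2 : ∀ x ∈ Icc (0 : ℝ) 3, 0 ≤ Real.sin x - x * Real.cos x := by
      refine mono_aux _ (fun x => x * Real.sin x) ?_ (by simp) k3
      intro x
      refine ((Real.hasDerivAt_sin x).sub ((hasDerivAt_id' x).mul
        (Real.hasDerivAt_cos x))).congr_deriv ?_
      ring
    have k1 : ∀ x ∈ Icc (0 : ℝ) 3, 0 ≤ 2 - 2 * Real.cos x - x * Real.sin x := by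
      refine mono_aux _ (fun x => Real.sin x - x * Real.cos x) ?_ (by simp) k2
      intro x
      refine ((((Real.hasDerivAt_cos x).const_mul 2).const_sub 2).sub ((hasDerivAt_id' x).mul
        (Real.hasDerivAt_sin x))).congr_deriv ?_
      ring
    have k0 : ∀ x ∈ Icc (0 : ℝ) 3, 0 ≤ 2 * x + x * Real.cos x - 3 * Real.sin x := by
      refine mono_aux _ (fun x => 2 - 2 * Real.cos x - x * Real.sin x) ?_ (by simp) k1
      intro x
      refine ((((hasDerivAt_id' x).const_mul 2).add ((hasDerivAt_id' x).mul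
        (Real.hasDerivAt_cos x))).sub ((Real.hasDerivAt_sin x).const_mul 3)).congr_deriv ?_
      ring
    exact k0 r ⟨hr, h3.le⟩

lemma pp_nonneg (r : ℝ) (hr : 0 ≤ r) : 0 ≤ pp r := by
  unfold pp
  have := num_nonneg r hr
  positivity

lemma pp_le_self (r : ℝ) (hr : 0 ≤ r) : pp r ≤ r := by
  rw [pp_int]
  have h1 : ∫ ξ in (0 : ℝ)..1, ξ * (1 - ξ) ^ 2 * Real.sin (r * ξ) ≤ ∫ _ξ in (0 : ℝ)..1, r / 3 := by
    refine intervalIntegral.integral_mono_on (by norm_num) ?_ ?_ ?_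
    · exact (by fun_prop : Continuous fun ξ : ℝ => ξ * (1 - ξ) ^ 2 * Real.sin (r * ξ)).intervalIntegrable _ _
    · exact continuous_const.intervalIntegrable _ _
    · intro ξ hξ
      have h2 : Real.sin (r * ξ) ≤ r := by
        have h3 : Real.sin (r * ξ) ≤ r * ξ := Real.sin_le (mul_nonneg hr hξ.1)
        have h4 : r * ξ ≤ r * 1 := mul_le_mul_of_nonneg_left hξ.2 hr
        linarith
      have h5 : 0 ≤ ξ * (1 - ξ) ^ 2 := mul_nonneg hξ.1 (sq_nonneg _)
      have h6 : ξ * (1 - ξ) ^ 2 ≤ 1 / 3 := by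
        have h7 : ξ * (1 - ξ) ≤ 1 / 4 := by nlinarith [sq_nonneg (ξ - 1 / 2)]
        have h8 : 0 ≤ ξ * (1 - ξ) := mul_nonneg hξ.1 (by linarith [hξ.2])
        have h9 : ξ * (1 - ξ) ^ 2 = ξ * (1 - ξ) * (1 - ξ) := by ring
        rw [h9]
        have h10 : ξ * (1 - ξ) * (1 - ξ) ≤ ξ * (1 - ξ) * 1 :=
          mul_le_mul_of_nonneg_left (by linarith [hξ.1]) h8
        linarith
      calc ξ * (1 - ξ) ^ 2 * Real.sin (r * ξ) ≤ ξ * (1 - ξ) ^ 2 * r :=
            mul_le_mul_of_nonneg_left h2 h5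
        _ ≤ 1 / 3 * r := mul_le_mul_of_nonneg_right h6 hr
        _ = r / 3 := by ring
  rw [intervalIntegral.integral_const] at h1
  simp only [sub_zero, smul_eq_mul, one_mul] at h1
  linarith

lemma pp_le_cube (r : ℝ) (hr : 0 < r) : pp r ≤ 36 / r ^ 3 := by
  unfold pp
  rw [div_le_div_iff₀ (by positivity) (by positivity)]
  have h1 := Real.cos_le_one r
  have h2 : -r ≤ Real.sin r := by
    have h4 : |Real.sin r| ≤ |r| := Real.abs_sin_le_abs
    rw [abs_of_pos hr] at h4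
    linarith [neg_abs_le (Real.sin r)]
  have h3 : 2 * r + r * Real.cos r - 3 * Real.sin r ≤ 6 * r := by nlinarith
  calc 6 * (2 * r + r * Real.cos r - 3 * Real.sin r) * r ^ 3 ≤ 6 * (6 * r) * r ^ 3 := by
        gcongr
    _ = 36 * r ^ 4 := by ring

lemma pp_odd (r : ℝ) : pp (-r) = -pp r := by
  unfold pp
  rw [Real.cos_neg, Real.sin_neg]
  have : (-r) ^ 4 = r ^ 4 := by ring
  rw [this, ← neg_div]
  congr 1
  ring

lemma pp_cont : Continuous pp := by
  have h1 : pp = fun r => 3 * ∫ ξ in (0 : ℝ)..1, ξ * (1 - ξ) ^ 2 * Real.sin (r * ξ) :=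
    funext pp_int
  rw [h1]
  refine continuous_const.mul ?_
  refine intervalIntegral.continuous_parametric_intervalIntegral_of_continuous' ?_ 0 1
  unfold Function.uncurry
  fun_prop

lemma pp_bd (r : ℝ) (hr : 0 ≤ r) :
    pp r ≤ 72 * (1 + r ^ 2)⁻¹ ∧ r * pp r ≤ 72 * (1 + r ^ 2)⁻¹ := by
  have hp : 0 < 1 + r ^ 2 := by positivity
  have h0 := pp_nonneg r hr
  rw [← div_eq_mul_inv, le_div_iff₀ hp, le_div_iff₀ hp]
  by_cases h1 : r ≤ 1
  · have h2 := pp_le_self r hr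
    have h3 : r ^ 2 ≤ 1 := by nlinarith
    have h4 : pp r ≤ 1 := h2.trans h1
    constructor
    · nlinarith
    · have : r * pp r ≤ 1 := by nlinarith
      nlinarith [mul_nonneg hr h0]
  · push Not at h1
    have h2 := pp_le_cube r (by linarith)
    have hr0 : 0 < r := by linarith
    have h3 : pp r * r ^ 3 ≤ 36 := by
      rwa [le_div_iff₀ (by positivity)] at h2
    have h5 : r * pp r * (1 + r ^ 2) ≤ 72 := by
      have h6 : 1 + r ^ 2 ≤ 2 * r ^ 2 := by nlinarith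
      calc r * pp r * (1 + r ^ 2) ≤ r * pp r * (2 * r ^ 2) :=
            mul_le_mul_of_nonneg_left h6 (mul_nonneg hr h0)
        _ = 2 * (pp r * r ^ 3) := by ring
        _ ≤ 72 := by linarith
    refine ⟨?_, h5⟩
    have h7 : pp r ≤ r * pp r := by nlinarith
    calc pp r * (1 + r ^ 2) ≤ r * pp r * (1 + r ^ 2) := mul_le_mul_of_nonneg_right h7 hp.le
      _ ≤ 72 := h5

lemma pp_abs (r : ℝ) : |pp r| ≤ 72 * (1 + r ^ 2)⁻¹ := by
  rcases le_total 0 r with h | h
  · rw [abs_of_nonneg (pp_nonneg r h)]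
    exact (pp_bd r h).1
  · have h1 := pp_odd (-r)
    rw [neg_neg] at h1
    rw [h1, abs_neg, abs_of_nonneg (pp_nonneg _ (by linarith))]
    have := (pp_bd (-r) (by linarith)).1
    rwa [neg_sq] at this

theorem pf_pb : T_PB := by
  refine ⟨pp_nonneg, pp_le_self, pp_le_cube, pp_odd, pp_cont, ?_, ?_, pp_int⟩
  · refine (integrable_inv_one_add_sq.const_mul 72).mono' pp_cont.aestronglyMeasurable ?_
    exact Filter.Eventually.of_forall fun r => by
      rw [Real.norm_eq_abs]; exact pp_abs r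
  · refine Integrable.mono' (g := fun r => 72 * (1 + r ^ 2)⁻¹)
      (integrable_inv_one_add_sq.const_mul 72).integrableOn
      (continuous_id.mul pp_cont).aestronglyMeasurable ?_
    filter_upwards [ae_restrict_mem measurableSet_Ioi] with r hr
    have hr' : 0 ≤ r := le_of_lt hr
    rw [Real.norm_eq_abs, abs_of_nonneg (mul_nonneg hr' (pp_nonneg r hr'))]
    exact (pp_bd r hr').2

end Pool.Agent.H91.MQ
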